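import Pool.Agent.H90.Ord.JA

/-!
# Joint plays: common lemmas

`Par s t`: two states of one vertex on two boards.  The final lemmas: if one vertex of the triangle is
complete and the challenger wins on all three boards, then there are three pairwise adjacent lists.
-/

set_option autoImplicit false

namespace Pool.Agent.H90.Ord

theorem kids_levels (l : Lev) (m : Mark) (r : ℕ) (H : List ℕ) (N : ℕ) :
    (kids l m r H N).map Prod.fst = kidsLev l N := by
  have hr : ∀ (f : ℕ → Lev × Mark) (lv : Lev), (∀ i, (f i).1 = lv) →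
      ((List.range N).map f).map Prod.fst = List.replicate N lv := by
    intro f lv hf
    rw [List.map_map, List.eq_replicate_iff]
    refine ⟨by simp, ?_⟩
    intro x hx
    obtain ⟨i, _, rfl⟩ := List.mem_map.1 hx
    exact hf i
  rcases l with k | k | _
  · rcases k with _ | k
    · rfl
    · exact hr _ _ (fun i => rfl)
  · rcases k with _ | k
    · rcases m with _ | _ | ⟨o, L⟩ | ⟨o, L⟩
      · rfl
      · rfl
      · rfl
      · cases o <;> rfl
    · exact hr _ _ (fun i => rfl)
  · rcases m with _ | _ | ⟨o, L⟩ | ⟨o, L⟩ <;> rfl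

theorem Par.refl (s : St) : Par s s := ⟨rfl, rfl⟩

theorem Par.nil_iff {s t : St} (h : Par s t) : s.stk = [] ↔ t.stk = [] := by
  have h2 := h.2
  constructor
  · intro h0
    rw [h0] at h2
    exact List.map_eq_nil_iff.1 h2.symm
  · intro h0
    rw [h0] at h2
    exact List.map_eq_nil_iff.1 h2

theorem Par.step {s t : St} (h : Par s t) {l l' : List ℕ}
    (hl : l.getLastD 0 = l'.getLastD 0) : Par (s.step l) (t.step l') := by
  obtain ⟨h1, h2⟩ := h
  rcases hs : s.stk with _ | ⟨⟨lv, m⟩, ts⟩
  · rcases ht : t.stk with _ | ⟨⟨lv', m'⟩, tt⟩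
    · unfold St.step
      rw [hs, ht]
      exact ⟨h1, h2⟩
    · rw [hs, ht] at h2
      cases h2
  · rcases ht : t.stk with _ | ⟨⟨lv', m'⟩, tt⟩
    · rw [hs, ht] at h2
      cases h2
    · rw [hs, ht] at h2
      simp only [List.map_cons, List.cons.injEq] at h2
      obtain ⟨rfl, h2⟩ := h2
      unfold St.step
      rw [hs, ht]
      refine ⟨?_, ?_⟩
      · show s.real ++ _ = t.real ++ _
        rw [h1, hl]
      · show List.map Prod.fst (_ ++ _) = List.map Prod.fst (_ ++ _)
        rw [List.map_append, List.map_append, kids_levels, kids_levels, h2, hl]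

/-- two lists with the same last number from two Big sets -/
theorem big_common {m n : ℕ} (M : ℕ) {T1 T2 : Set (List ℕ)} (h1 : Big (m + 1) T1)
    (h2 : Big (n + 1) T2) : ∃ l1 ∈ T1, ∃ l2 ∈ T2, l1.getLastD 0 = l2.getLastD 0 ∧
      Fresh M l1 ∧ Fresh M l2 ∧ l1.length = m + 1 ∧ l2.length = n + 1 := by
  have h1' := big_inter h1 (big_fresh (m + 1) M)
  have h2' := big_inter h2 (big_fresh (n + 1) M)
  have e1 : ((List.replicate m (true, false) ++ List.replicate n (false, true)).filter
      fun p : Bool × Bool => p.1).length = m := by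
    simp
  have e2 : ((List.replicate m (true, false) ++ List.replicate n (false, true)).filter
      fun p : Bool × Bool => p.2).length = n := by
    simp
  obtain ⟨e, N, _, _, ha, hb⟩ := big_merge
    (List.replicate m (true, false) ++ List.replicate n (false, true)) M
    (by rw [e1]; exact h1') (by rw [e2]; exact h2')
  refine ⟨_, ha.1, _, hb.1, ?_, ha.2.2, hb.2.2, ha.2.1, hb.2.1⟩
  simp

theorem AW.win {red : List ℕ → List ℕ → Prop} {A : Auto} {ann : Ann} {a b : St}
    (h : AW red A ann a b) : Win red a b := by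
  induction h with
  | done ha hb h _ => exact Win.done ha hb h
  | pickA n ha hb h0 _ _ ih => exact Win.pickA n ha hb h0 ih
  | pickB n ha hb h0 hr _ _ ih => exact Win.pickB n ha hb h0 hr ih
  | stepA f T ha hb _ hT _ ih => exact Win.stepA T ha hb hT ih
  | stepB f T ha hb _ hT _ ih => exact Win.stepB T ha hb hT ih

theorem nonrun_of_nil {s : St} (h : s.stk = []) : s.Nonrun := Or.inl h

theorem not_nonrun_pick {s : St} (h : s.stk ≠ []) (n : ℕ) : ¬ (s.pick n).Nonrun := by
  rintro (h1 | ⟨h1, _⟩)
  · exact h h1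
  · cases h1

/-- the partner `c` is complete: `s` can always be moved (`s` is the first vertex) -/
theorem solo_a {red : List ℕ → List ℕ → Prop} {s c : St} (h : Win red s c) (hc : c.stk = [])
    (hs : s.stk ≠ []) : ∃ s', (s' = s ∨ ∃ n, s' = s.pick n) ∧
      ∃ T, Big (s'.need + 1) T ∧ ∀ l ∈ T, Win red (s'.step l) c := by
  cases h with
  | done ha _ _ => exact absurd ha hs
  | pickA n ha hb h0 h =>
      cases h with
      | done ha' _ _ => exact absurd ha' hs
      | pickA _ ha' _ _ _ => exact absurd ha' (not_nonrun_pick hs n)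
      | pickB _ ha' _ _ _ _ => exact absurd ha' (not_nonrun_pick hs n)
      | stepA T _ _ hT h => exact ⟨s.pick n, Or.inr ⟨n, rfl⟩, T, hT, h⟩
      | stepB T ha' _ _ _ => exact absurd ha' (not_nonrun_pick hs n)
  | pickB n ha hb h0 hr h => exact absurd hc h0
  | stepA T ha hb hT h => exact ⟨s, Or.inl rfl, T, hT, h⟩
  | stepB T ha hb hT h => exact absurd (nonrun_of_nil hc) hb

/-- the partner `c` is complete: `s` can always be moved (`s` is the second vertex) -/
theorem solo_b {red : List ℕ → List ℕ → Prop} {c s : St} (h : Win red c s) (hc : c.stk = [])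
    (hs : s.stk ≠ []) : ∃ s', (s' = s ∨ ∃ n, s' = s.pick n) ∧
      ∃ T, Big (s'.need + 1) T ∧ ∀ l ∈ T, Win red c (s'.step l) := by
  cases h with
  | done _ hb _ => exact absurd hb hs
  | pickA n ha hb h0 h => exact absurd hc h0
  | pickB n ha hb h0 hr h =>
      cases h with
      | done _ hb' _ => exact absurd hb' hs
      | pickA _ _ hb' _ _ => exact absurd hb' (not_nonrun_pick hs n)
      | pickB _ _ hb' _ _ _ => exact absurd hb' (not_nonrun_pick hs n)
      | stepA T _ hb' _ _ => exact absurd hb' (not_nonrun_pick hs n)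
      | stepB T _ _ hT h => exact ⟨s.pick n, Or.inr ⟨n, rfl⟩, T, hT, h⟩
  | stepA T ha hb hT h => exact absurd (nonrun_of_nil hc) ha
  | stepB T ha hb hT h => exact ⟨s, Or.inl rfl, T, hT, h⟩

theorem Par.of_pick {s t t' : St} (h : Par s t) (h' : t' = t ∨ ∃ n, t' = t.pick n) : Par s t' := by
  rcases h' with rfl | ⟨n, rfl⟩
  · exact h
  · exact h.pick2 n

theorem ne_nil_of_run {s : St} (h : ¬ s.Nonrun) : s.stk ≠ [] := fun h0 => h (Or.inl h0)

/-- the third vertex is complete -/
theorem final_z {red : List ℕ → List ℕ → Prop} {x1 y1 x2 z1 y2 z2 : St} (hxy : Win red x1 y1)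
    (hxz : Win red x2 z1) (hyz : Win red y2 z2) (px : Par x1 x2) (py : Par y1 y2)
    (pz : Par z1 z2) (hz : z1.stk = []) : Tri red := by
  have hz2 : z2.stk = [] := pz.nil_iff.1 hz
  induction hxy generalizing x2 y2 with
  | @done a b ha hb h =>
      have hx2 := px.nil_iff.1 ha
      have hy2 := py.nil_iff.1 hb
      have r1 : red x2.real z1.real := by
        cases hxz with
        | done _ _ h => exact h
        | pickA _ _ _ h0 _ => exact absurd hx2 h0
        | pickB _ _ _ h0 _ _ => exact absurd hz h0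
        | stepA _ h0 _ _ _ => exact absurd (Or.inl hx2) h0
        | stepB _ _ h0 _ _ => exact absurd (Or.inl hz) h0
      have r2 : red y2.real z2.real := by
        cases hyz with
        | done _ _ h => exact h
        | pickA _ _ _ h0 _ => exact absurd hy2 h0
        | pickB _ _ _ h0 _ _ => exact absurd hz2 h0
        | stepA _ h0 _ _ _ => exact absurd (Or.inl hy2) h0
        | stepB _ _ h0 _ _ => exact absurd (Or.inl hz2) h0
      refine ⟨a.real, b.real, z1.real, h, ?_, ?_⟩
      · rw [px.1]
        exact r1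
      · rw [py.1, pz.1]
        exact r2
  | pickA n _ _ _ _ ih => exact ih hxz hyz px py
  | pickB n _ _ _ _ _ ih => exact ih hxz hyz px py
  | @stepA a b T ha hb hT _ ih =>
      obtain ⟨s', hs', T', hT', h'⟩ := solo_a hxz hz (fun h0 => ne_nil_of_run ha (px.nil_iff.2 h0))
      obtain ⟨l1, hl1, l2, hl2, he, _⟩ := big_common 0 hT hT'
      exact ih l1 hl1 (h' l2 hl2) hyz ((px.of_pick hs').step he) py
  | @stepB a b T ha hb hT _ ih =>
      obtain ⟨s', hs', T', hT', h'⟩ := solo_a hyz hz2 (fun h0 => ne_nil_of_run hb (py.nil_iff.2 h0))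
      obtain ⟨l1, hl1, l2, hl2, he, _⟩ := big_common 0 hT hT'
      exact ih l1 hl1 hxz (h' l2 hl2) px ((py.of_pick hs').step he)

/-- the first vertex is complete -/
theorem final_x {red : List ℕ → List ℕ → Prop} {x1 y1 x2 z1 y2 z2 : St} (hxy : Win red x1 y1)
    (hxz : Win red x2 z1) (hyz : Win red y2 z2) (px : Par x1 x2) (py : Par y1 y2)
    (pz : Par z1 z2) (hx : x1.stk = []) : Tri red := by
  have hx2 : x2.stk = [] := px.nil_iff.1 hx
  induction hyz generalizing y1 z1 with
  | @done a b ha hb h =>
      have hy1 := py.nil_iff.2 ha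
      have hz1 := pz.nil_iff.2 hb
      have r1 : red x1.real y1.real := by
        cases hxy with
        | done _ _ h => exact h
        | pickA _ _ _ h0 _ => exact absurd hx h0
        | pickB _ _ _ h0 _ _ => exact absurd hy1 h0
        | stepA _ h0 _ _ _ => exact absurd (Or.inl hx) h0
        | stepB _ _ h0 _ _ => exact absurd (Or.inl hy1) h0
      have r2 : red x2.real z1.real := by
        cases hxz with
        | done _ _ h => exact h
        | pickA _ _ _ h0 _ => exact absurd hx2 h0
        | pickB _ _ _ h0 _ _ => exact absurd hz1 h0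
        | stepA _ h0 _ _ _ => exact absurd (Or.inl hx2) h0
        | stepB _ _ h0 _ _ => exact absurd (Or.inl hz1) h0
      refine ⟨x1.real, a.real, b.real, ?_, ?_, h⟩
      · rw [← py.1]
        exact r1
      · rw [← pz.1, px.1]
        exact r2
  | pickA n _ _ _ _ ih => exact ih hxy hxz py pz
  | pickB n _ _ _ _ _ ih => exact ih hxy hxz py pz
  | @stepA a b T ha hb hT _ ih =>
      obtain ⟨s', hs', T', hT', h'⟩ := solo_b hxy hx (fun h0 => ne_nil_of_run ha (py.nil_iff.1 h0))
      obtain ⟨l1, hl1, l2, hl2, he, _⟩ := big_common 0 hT hT'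
      exact ih l1 hl1 (h' l2 hl2) hxz (((py.symm.of_pick hs').step he).symm) pz
  | @stepB a b T ha hb hT _ ih =>
      obtain ⟨s', hs', T', hT', h'⟩ := solo_b hxz hx2 (fun h0 => ne_nil_of_run hb (pz.nil_iff.1 h0))
      obtain ⟨l1, hl1, l2, hl2, he, _⟩ := big_common 0 hT hT'
      exact ih l1 hl1 hxy (h' l2 hl2) py (((pz.symm.of_pick hs').step he).symm)

end Pool.Agent.H90.Ord
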