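import Pool.Agent.H11.JN.T0R

/-!
# Sequential pairs

`SeqS s t`: all marks of the first board are above all marks of the second board (after the first two
steps).  As long as the first board has a mark, the second board meets no open state.
-/

set_option autoImplicit false

namespace Pool.Agent.H90.Ord

/-- some entry is marked -/
def HasMark (s : St) : Prop := ∃ e ∈ s.stk, e.2 ≠ Mark.none

theorem chM_none (l : Lev) (r : ℕ) : chM l .none r = [] := by
  rcases l with k | k | _ <;> rfl

theorem markAt_nil' (H : List ℕ) (i : ℕ) : markAt H [] i = .none := by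
  unfold markAt
  rw [List.zip_nil_right]
  rfl

theorem kids_unmarked (l : Lev) (r : ℕ) (H : List ℕ) (N : ℕ) :
    ∀ e ∈ kids l .none r H N, e.2 = Mark.none := by
  rcases l with k | k | _
  · rcases k with _ | k
    · intro e he
      cases he
    · intro e he
      obtain ⟨i, _, rfl⟩ := List.mem_map.1 he
      show markAt H (chM _ Mark.none r) i = _
      rw [chM_none, markAt_nil']
  · rcases k with _ | k
    · intro e he
      have he' : e ∈ [((.inn N, .none) : Lev × Mark)] := he
      rw [List.mem_singleton.1 he']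
    · intro e he
      obtain ⟨i, _, rfl⟩ := List.mem_map.1 he
      show markAt H (chM _ Mark.none r) i = _
      rw [chM_none, markAt_nil']
  · intro e he
    have he' : e ∈ [((.out N, .none) : Lev × Mark)] := he
    rw [List.mem_singleton.1 he']

theorem stepStk11 {s : St} {lv : Lev} {m : Mark} {t : List (Lev × Mark)} (hs : s.stk = (lv, m) :: t)
    (l : List ℕ) :
    (s.step l).stk = kids lv m s.reg l.dropLast (l.getLastD 0) ++ t := by
  unfold St.step
  rw [hs]

theorem hasMark_of_step {s : St} {l : List ℕ} (h : HasMark (s.step l)) : HasMark s := by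
  rcases hs : s.stk with _ | ⟨⟨lv, m⟩, t⟩
  · unfold St.step at h
    rw [hs] at h
    exact h
  · obtain ⟨e, he, hm⟩ := h
    rw [stepStk11 hs, List.mem_append] at he
    rcases he with he | he
    · by_cases h0 : m = .none
      · subst h0
        exact absurd (kids_unmarked _ _ _ _ e he) hm
      · exact ⟨(lv, m), by rw [hs]; exact List.mem_cons_self, h0⟩
    · exact ⟨e, by rw [hs]; exact List.mem_cons_of_mem _ he, hm⟩

theorem openTop_hasMark {s : St} (h : s.OpenTop) : HasMark s := by
  obtain ⟨t, ht | ht⟩ := h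
  · exact ⟨_, by rw [ht]; exact List.mem_cons_self, by simp⟩
  · exact ⟨_, by rw [ht]; exact List.mem_cons_self, by simp⟩

theorem nonrun_hasMark {s : St} (h : s.Nonrun) (h0 : s.stk ≠ []) : HasMark s := by
  rcases h with h | ⟨_, h⟩
  · exact absurd h h0
  · exact openTop_hasMark h

/-- all marks of the first board are above all marks of the second board -/
def SeqS (s t : St) : Prop :=
  s.real = t.real ∧
  ((s.stk = [(.root, .U)] ∧ t.stk = [(.root, .U)] ∧ t.pk = true) ∨
   (∃ k L1 L2, s.stk = [(.out k, .E true L1)] ∧ t.stk = [(.out k, .E true L2)] ∧ 1 ≤ k ∧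
      (∀ g ∈ L1, g + 1 < k) ∧ (∀ g ∈ L2, g + 1 < k)) ∨
   (∃ A1 B1 A2 B2, s.stk = A1 ++ B1 ∧ t.stk = A2 ++ B2 ∧ A1.map Prod.fst = A2.map Prod.fst ∧
      B1.map Prod.fst = B2.map Prod.fst ∧ (∀ e ∈ B1, e.2 = Mark.none) ∧
      (∀ e ∈ A2, e.2 = Mark.none)))

theorem SeqS.par {s t : St} (h : SeqS s t) : Par s t := by
  obtain ⟨h1, h | ⟨k, L1, L2, h2, h3, _⟩ | ⟨A1, B1, A2, B2, h2, h3, h4, h5, _⟩⟩ := h
  · refine ⟨h1, ?_⟩
    rw [h.1, h.2.1]
  · refine ⟨h1, ?_⟩
    rw [h2, h3]
    rfl
  · refine ⟨h1, ?_⟩
    rw [h2, h3, List.map_append, List.map_append, h4, h5]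

theorem SeqS.pick1 {s t : St} (h : SeqS s t) (n : ℕ) : SeqS (s.pick n) t := h

theorem SeqS.run {s t : St} (h : SeqS s t) (hm : HasMark s) : ¬ t.Nonrun := by
  obtain ⟨_, ⟨_, h2, h3⟩ | ⟨k, L1, L2, _, h3, _⟩ | ⟨A1, B1, A2, B2, h2, h3, h4, _, h6, h7⟩⟩ := h
  · rintro (h | ⟨h, _⟩)
    · rw [h2] at h
      cases h
    · rw [h3] at h
      cases h
  · rintro (h | ⟨_, t', h | h⟩)
    · rw [h3] at h
      cases h
    · rw [h3] at h
      cases h
    · rw [h3] at h
      cases h
  · obtain ⟨e, he, hne⟩ := hm
    have hA1 : A1 ≠ [] := by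
      rintro rfl
      rw [h2, List.nil_append] at he
      exact hne (h6 e he)
    have hA2 : A2 ≠ [] := by
      rintro rfl
      exact hA1 (List.map_eq_nil_iff.1 h4)
    obtain ⟨f, A2', rfl⟩ := List.exists_cons_of_ne_nil hA2
    have hf : f.2 = .none := h7 f List.mem_cons_self
    rintro (h | ⟨_, t', h | h⟩)
    · rw [h3] at h
      cases h
    · rw [h3, List.cons_append, List.cons.injEq] at h
      rw [h.1] at hf
      cases hf
    · rw [h3, List.cons_append, List.cons.injEq] at h
      rw [h.1] at hf
      cases hf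

theorem fresh_getLast {M : ℕ} {l : List ℕ} (h : Fresh M l) (hl : l ≠ []) :
    (∀ g ∈ l.dropLast, g + 3 ≤ l.getLastD 0) ∧ M + 3 ≤ l.getLastD 0 := by
  have hd : l = l.dropLast ++ [l.getLastD 0] := by
    rw [List.getLastD_eq_getLast?, List.getLast?_eq_getLast_of_ne_nil hl]
    exact (List.dropLast_append_getLast hl).symm
  constructor
  · intro g hg
    have hs := h.sorted
    rw [hd, List.pairwise_append] at hs
    exact hs.2.2 g hg _ (List.mem_singleton.2 rfl)
  · have : l.getLastD 0 ∈ l := by
      rw [List.getLastD_eq_getLast?, List.getLast?_eq_getLast_of_ne_nil hl]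
      exact List.getLast_mem hl
    exact h.ge this

/-- sequential pairs are preserved by suitable steps -/
theorem SeqS.step {s t : St} (h : SeqS s t) (hm : HasMark s) {T1 T2 : Set (List ℕ)}
    (h1 : Big (s.need + 1) T1) (h2 : Big (t.need + 1) T2) :
    ∃ l1 ∈ T1, ∃ l2 ∈ T2, l1.getLastD 0 = l2.getLastD 0 ∧ SeqS (s.step l1) (t.step l2) := by
  obtain ⟨hr, ⟨hs, ht, _⟩ | ⟨k, L1, L2, hs, ht, hk, hL1, hL2⟩ |
    ⟨A1, B1, A2, B2, hs, ht, h4, h5, h6, h7⟩⟩ := h
  · obtain ⟨l1, hl1, l2, hl2, he, hf1, hf2, hn1, hn2⟩ := big_common 0 h1 h2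
    refine ⟨l1, hl1, l2, hl2, he, ?_⟩
    have hp : Par s t := ⟨hr, by rw [hs, ht]⟩
    refine ⟨(hp.step he).1, Or.inr (Or.inl ?_)⟩
    have hne1 : l1 ≠ [] := by
      rintro rfl
      cases hn1
    have hne2 : l2 ≠ [] := by
      rintro rfl
      cases hn2
    obtain ⟨ha1, hb1⟩ := fresh_getLast hf1 hne1
    obtain ⟨ha2, hb2⟩ := fresh_getLast hf2 hne2
    refine ⟨l1.getLastD 0, l1.dropLast.reverse, l2.dropLast.reverse, ?_, ?_, by omega, ?_, ?_⟩
    · rw [stepStk11 hs]
      rfl
    · rw [stepStk11 ht, he]
      rfl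
    · intro g hg
      have := ha1 g (List.mem_reverse.1 hg)
      omega
    · intro g hg
      have := ha2 g (List.mem_reverse.1 hg)
      omega
  · obtain ⟨k, rfl⟩ : ∃ k', k = k' + 1 := ⟨k - 1, by omega⟩
    have hc1 : chM (.out (k + 1)) (.E true L1) s.reg = [.E true L1] := by
      show (if L1.head? = some (k + 1) then _ else _) = _
      rw [if_neg]
      intro h0
      have := hL1 _ (List.mem_of_mem_head? h0)
      omega
    have hc2 : chM (.out (k + 1)) (.E true L2) t.reg = [.E true L2] := by
      show (if L2.head? = some (k + 1) then _ else _) = _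
      rw [if_neg]
      intro h0
      have := hL2 _ (List.mem_of_mem_head? h0)
      omega
    have hn1 : s.need = 1 := by
      unfold St.need
      rw [hs]
      show (chM (.out (k + 1)) (.E true L1) s.reg).length = 1
      rw [hc1]
      rfl
    have hn2 : t.need = 1 := by
      unfold St.need
      rw [ht]
      show (chM (.out (k + 1)) (.E true L2) t.reg).length = 1
      rw [hc2]
      rfl
    rw [hn1] at h1
    rw [hn2] at h2
    obtain ⟨e, N, hlen, hf, hT1, hT2⟩ := big_merge [(true, false), (false, true)] 0 h1 h2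
    obtain ⟨c1, c2, rfl⟩ : ∃ c1 c2, e = [c1, c2] := by
      rcases e with _ | ⟨c1, _ | ⟨c2, _ | ⟨c3, e⟩⟩⟩
      · cases hlen
      · cases hlen
      · exact ⟨c1, c2, rfl⟩
      · simp at hlen
    have hT1' : [c1, N] ∈ T1 := hT1
    have hT2' : [c2, N] ∈ T2 := hT2
    obtain ⟨_, hc12, hc2N, _⟩ := hf
    refine ⟨[c1, N], hT1', [c2, N], hT2', rfl, ?_⟩
    have hp : Par s t := ⟨hr, by rw [hs, ht]; rfl⟩
    refine ⟨(hp.step (l := [c1, N]) (l' := [c2, N]) rfl).1, Or.inr (Or.inr ?_)⟩
    have hk1 : (s.step [c1, N]).stk =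
        (List.range N).map fun i => (Lev.out k, markAt [c1] [.E true L1] i) := by
      rw [stepStk11 hs, List.append_nil]
      show (List.range N).map (fun i => (Lev.out k, markAt [c1]
        (chM (.out (k + 1)) (.E true L1) s.reg) i)) = _
      rw [hc1]
    have hk2 : (t.step [c2, N]).stk =
        (List.range N).map fun i => (Lev.out k, markAt [c2] [.E true L2] i) := by
      rw [stepStk11 ht, List.append_nil]
      show (List.range N).map (fun i => (Lev.out k, markAt [c2]
        (chM (.out (k + 1)) (.E true L2) t.reg) i)) = _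
      rw [hc2]
    have hsplit : List.range N = List.range (c1 + 1) ++ (List.range (N - (c1 + 1))).map
        (fun x => (c1 + 1) + x) := by
      have : N = (c1 + 1) + (N - (c1 + 1)) := by omega
      conv_lhs => rw [this]
      exact List.range_add
    refine ⟨(List.range (c1 + 1)).map fun i => (Lev.out k, markAt [c1] [.E true L1] i),
      ((List.range (N - (c1 + 1))).map (fun x => (c1 + 1) + x)).map
        fun i => (Lev.out k, markAt [c1] [.E true L1] i),
      (List.range (c1 + 1)).map fun i => (Lev.out k, markAt [c2] [.E true L2] i),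
      ((List.range (N - (c1 + 1))).map (fun x => (c1 + 1) + x)).map
        fun i => (Lev.out k, markAt [c2] [.E true L2] i), ?_, ?_, ?_, ?_, ?_, ?_⟩
    · rw [hk1, hsplit, List.map_append]
    · rw [hk2, hsplit, List.map_append]
    · rw [List.map_map, List.map_map]
      rfl
    · rw [List.map_map, List.map_map, List.map_map, List.map_map]
      rfl
    · intro x hx
      rw [List.map_map] at hx
      obtain ⟨i, _, rfl⟩ := List.mem_map.1 hx
      show markAt [c1] [.E true L1] (c1 + 1 + i) = .none
      unfold markAt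
      have : (([c1].zip [Mark.E true L1]).find? fun p => decide (p.1 = c1 + 1 + i)) = none := by
        have h0 : ¬ c1 = c1 + 1 + i := by omega
        simp [h0]
      rw [this]
    · intro x hx
      obtain ⟨i, hi, rfl⟩ := List.mem_map.1 hx
      rw [List.mem_range] at hi
      show markAt [c2] [.E true L2] i = .none
      unfold markAt
      have : (([c2].zip [Mark.E true L2]).find? fun p => decide (p.1 = i)) = none := by
        have h0 : ¬ c2 = i := by omega
        simp [h0]
      rw [this]
  · obtain ⟨l1, hl1, l2, hl2, he, _⟩ := big_common 0 h1 h2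
    refine ⟨l1, hl1, l2, hl2, he, ?_⟩
    have hp : Par s t := ⟨hr, by rw [hs, ht, List.map_append, List.map_append, h4, h5]⟩
    refine ⟨(hp.step he).1, Or.inr (Or.inr ?_)⟩
    rcases A1 with _ | ⟨⟨lv, m⟩, A1⟩
    · exfalso
      obtain ⟨e, he, hne⟩ := hm
      rw [hs, List.nil_append] at he
      exact hne (h6 e he)
    · rcases A2 with _ | ⟨⟨lv', m'⟩, A2⟩
      · cases h4
      · have hm' : m' = .none := h7 (lv', m') List.mem_cons_self
        subst hm'
        simp only [List.map_cons, List.cons.injEq] at h4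
        obtain ⟨rfl, h4⟩ := h4
        refine ⟨kids lv m s.reg l1.dropLast (l1.getLastD 0) ++ A1, B1,
          kids lv .none t.reg l2.dropLast (l2.getLastD 0) ++ A2, B2, ?_, ?_, ?_, h5, h6, ?_⟩
        · rw [stepStk11 hs, List.append_assoc]
          rfl
        · rw [stepStk11 ht, List.append_assoc]
          rfl
        · rw [List.map_append, List.map_append, kids_levels, kids_levels, h4, he]
        · intro e hmem
          rcases List.mem_append.1 hmem with hmem | hmem
          · exact kids_unmarked _ _ _ _ e hmem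
          · exact h7 e (List.mem_cons_of_mem _ hmem)

end Pool.Agent.H90.Ord
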