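import Pool.Agent.H11.JN.Base

/-!
# Joint plays: types 0 and R
-/

set_option autoImplicit false

namespace Pool.Agent.H90.Ord

theorem start_ne : start.stk ≠ [] := by simp [start]

theorem t0_reach {red : List ℕ → List ℕ → Prop} {ann : Ann} {a b : St} (h : AW red T0 ann a b)
    (hph : ann.ph = 1) (hb : b = start) : ∃ a', a'.stk = [] ∧ Win red a' start := by
  subst hb
  have key : ∀ {ann : Ann} {a b : St}, AW red T0 ann a b → ann.ph = 1 → b = start →
      ∃ a', a'.stk = [] ∧ Win red a' start := by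
    intro ann a b h
    induction h with
    | done _ hb _ _ =>
        intro _ hb'
        rw [hb'] at hb
        exact absurd hb start_ne
    | @pickA ann ann' a b n ha hb h0 ht _ ih =>
        intro hph hb'
        rcases ht with ⟨_, _, rfl⟩ | ⟨_, h2, _⟩ | ⟨h1, _⟩
        · exact ih hph hb'
        · cases h2
        · rw [hph] at h1
          cases h1
    | @pickB ann ann' a b n ha hb h0 hr ht h ih =>
        intro hph hb'
        rcases ht with ⟨_, h2, _⟩ | ⟨_, _, h3, _⟩ | ⟨h1, _⟩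
        · cases h2
        · subst hb'
          exact ⟨a, h3, Win.pickB n ha hb h0 hr h.win⟩
        · rw [hph] at h1
          cases h1
    | @stepA ann a b f T ha hb ht hT _ ih =>
        intro hph hb'
        obtain ⟨l, hl, _⟩ := big_nonempty hT
        obtain ⟨_, rfl⟩ := ht
        exact ih l hl hph hb'
    | @stepB ann a b f T ha hb ht hT _ ih =>
        intro hph hb'
        subst hb'
        exact absurd start_nonrun hb
  exact key h hph rfl

/-- type 0 -/
theorem joinT0 {red : List ℕ → List ℕ → Prop} (h : AW red T0 ⟨1, 0, 0, false⟩ start start) :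
    Tri red := by
  obtain ⟨a, ha, hw⟩ := t0_reach h rfl rfl
  exact final_x hw hw h.win (Par.refl _) (Par.refl _) (Par.refl _) ha

/-- type R: the first vertex moves to its cut -/
theorem r1_reach {red : List ℕ → List ℕ → Prop} {ann : Ann} {a b : St} (h : AW red R1 ann a b)
    (hph : ann.ph = 1) (hb : b = start) :
    ∃ a' n, a'.stk ≠ [] ∧ AW red R1 ⟨2, 0, 0, false⟩ a' (start.pick n) := by
  induction h with
  | done _ hb' _ _ =>
      rw [hb] at hb'
      exact absurd hb' start_ne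
  | @pickA ann ann' a b n ha _ h0 ht _ ih =>
      rcases ht with ⟨_, _, rfl⟩ | ⟨_, h2, _⟩ | ⟨h1, _⟩ | ⟨h1, _⟩ | ⟨h1, _⟩
      · exact ih hph hb
      · cases h2
      · rw [hph] at h1; cases h1
      · rw [hph] at h1; cases h1
      · rw [hph] at h1; cases h1
  | @pickB ann ann' a b n ha _ h0 hr ht h ih =>
      rcases ht with ⟨_, h2, _⟩ | ⟨_, _, _, h3, rfl⟩ | ⟨h1, _⟩ | ⟨h1, _⟩ | ⟨h1, _⟩
      · cases h2
      · subst hb
        exact ⟨a, n, h3, h⟩
      · rw [hph] at h1; cases h1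
      · rw [hph] at h1; cases h1
      · rw [hph] at h1; cases h1
  | @stepA ann a b f T ha _ ht hT _ ih =>
      obtain ⟨l, hl, _⟩ := big_nonempty hT
      obtain ⟨_, rfl⟩ := ht
      exact ih l hl hph hb
  | @stepB ann a b f T ha hb' ht hT _ ih =>
      subst hb
      exact absurd start_nonrun hb'

/-- phase 2 of `R1`: the second vertex can always be moved -/
theorem r1_solo {red : List ℕ → List ℕ → Prop} {c s : St}
    (h : AW red R1 ⟨2, 0, 0, false⟩ c s) (hs : s.stk ≠ []) :
    ∃ s', (s' = s ∨ ∃ n, s' = s.pick n) ∧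
      ∃ T, Big (s'.need + 1) T ∧ ∀ l ∈ T, AW red R1 ⟨2, 0, 0, false⟩ c (s'.step l) := by
  cases h with
  | done _ hb _ _ => exact absurd hb hs
  | pickA n ha hb h0 ht h =>
      rcases ht with ⟨h1, _⟩ | ⟨h1, _⟩ | ⟨_, h2, _⟩ | ⟨_, _, h3, _⟩ | ⟨h1, _⟩
      · cases h1
      · cases h1
      · cases h2
      · exact absurd h3 hs
      · cases h1
  | pickB n ha hb h0 hr ht h =>
      rcases ht with ⟨h1, _⟩ | ⟨h1, _⟩ | ⟨_, _, rfl⟩ | ⟨_, h2, _⟩ | ⟨h1, _⟩
      · cases h1
      · cases h1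
      · cases h with
        | done _ hb' _ _ => exact absurd hb' hs
        | pickA _ _ hb' _ _ _ => exact absurd hb' (not_nonrun_pick hs n)
        | pickB _ _ hb' _ _ _ _ => exact absurd hb' (not_nonrun_pick hs n)
        | stepA f T _ hb' _ _ _ => exact absurd hb' (not_nonrun_pick hs n)
        | stepB f T _ _ ht hT h =>
            obtain ⟨_, rfl⟩ := ht
            exact ⟨s.pick n, Or.inr ⟨n, rfl⟩, T, hT, h⟩
      · cases h2
      · cases h1
  | stepA f T ha hb ht hT h =>
      obtain ⟨ht, _⟩ := ht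
      rcases ht with ⟨h1, _⟩ | ⟨_, h2⟩ | ⟨h1, _⟩
      · cases h1
      · cases h2
      · cases h1
  | stepB f T ha hb ht hT h =>
      obtain ⟨_, rfl⟩ := ht
      exact ⟨s, Or.inl rfl, T, hT, h⟩

/-- type R: stage 2, the second vertex moves to its cut on the board `yz` -/
theorem r1_stage2 {red : List ℕ → List ℕ → Prop} {x : St} {ann : Ann} {y2 z : St}
    (h : AW red R1 ann y2 z) (hph : ann.ph = 1) (hz : z = start) {y1 : St}
    (hxy : AW red R1 ⟨2, 0, 0, false⟩ x y1) (py : Par y1 y2) :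
    ∃ y1' y2' m, AW red R1 ⟨2, 0, 0, false⟩ x y1' ∧ Par y1' y2' ∧
      AW red R1 ⟨2, 0, 0, false⟩ y2' (start.pick m) := by
  induction h generalizing y1 with
  | done _ hb' _ _ =>
      rw [hz] at hb'
      exact absurd hb' start_ne
  | @pickA ann ann' a b n ha _ h0 ht _ ih =>
      rcases ht with ⟨_, _, rfl⟩ | ⟨_, h2, _⟩ | ⟨h1, _⟩ | ⟨h1, _⟩ | ⟨h1, _⟩
      · exact ih hph hz hxy (py.pick2 n)
      · cases h2
      · rw [hph] at h1; cases h1
      · rw [hph] at h1; cases h1
      · rw [hph] at h1; cases h1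
  | @pickB ann ann' a b n ha _ h0 hr ht h ih =>
      rcases ht with ⟨_, h2, _⟩ | ⟨_, _, _, h3, rfl⟩ | ⟨h1, _⟩ | ⟨h1, _⟩ | ⟨h1, _⟩
      · cases h2
      · subst hz
        exact ⟨y1, a, n, hxy, py, h⟩
      · rw [hph] at h1; cases h1
      · rw [hph] at h1; cases h1
      · rw [hph] at h1; cases h1
  | @stepA ann a b f T ha _ ht hT _ ih =>
      obtain ⟨_, rfl⟩ := ht
      obtain ⟨s', hs', T', hT', h'⟩ := r1_solo hxy (fun h0 => ne_nil_of_run ha (py.nil_iff.1 h0))
      obtain ⟨l1, hl1, l2, hl2, he, _⟩ := big_common 0 hT hT'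
      exact ih l1 hl1 hph hz (h' l2 hl2) (((py.symm.of_pick hs').step he).symm)
  | @stepB ann a b f T ha hb' ht hT _ ih =>
      subst hz
      exact absurd start_nonrun hb'

/-- type R: stage 3, the third vertex completes -/
theorem r1_stage3 {red : List ℕ → List ℕ → Prop} {x y1 : St} {ann : Ann} {y2 z2 : St}
    (h : AW red R1 ann y2 z2) (hph : ann = ⟨2, 0, 0, false⟩) {z1 : St}
    (hxz : AW red R1 ⟨2, 0, 0, false⟩ x z1) (hxy : Win red x y1) (py : Par y1 y2)
    (pz : Par z1 z2) : Tri red := by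
  induction h generalizing z1 with
  | @done ann a b ha hb hr hd =>
      subst hph
      cases hd
  | @pickA ann ann' a b n ha hb h0 ht h ih =>
      subst hph
      rcases ht with ⟨h1, _⟩ | ⟨h1, _⟩ | ⟨_, h2, _⟩ | ⟨_, _, h3, rfl⟩ | ⟨h1, _⟩
      · cases h1
      · cases h1
      · cases h2
      · exact final_z hxy hxz.win (Win.pickA n ha hb h0 h.win) (Par.refl _) py pz
          (pz.nil_iff.2 h3)
      · cases h1
  | @pickB ann ann' a b n ha _ h0 hr ht h ih =>
      subst hph
      rcases ht with ⟨h1, _⟩ | ⟨h1, _⟩ | ⟨_, _, rfl⟩ | ⟨_, h2, _⟩ | ⟨h1, _⟩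
      · cases h1
      · cases h1
      · exact ih rfl hxz py (pz.pick2 n)
      · cases h2
      · cases h1
  | @stepA ann a b f T ha _ ht hT _ ih =>
      subst hph
      obtain ⟨ht, _⟩ := ht
      rcases ht with ⟨h1, _⟩ | ⟨_, h2⟩ | ⟨h1, _⟩
      · cases h1
      · cases h2
      · cases h1
  | @stepB ann a b f T ha hb' ht hT _ ih =>
      subst hph
      obtain ⟨_, rfl⟩ := ht
      obtain ⟨s', hs', T', hT', h'⟩ := r1_solo hxz (fun h0 => ne_nil_of_run hb' (pz.nil_iff.1 h0))
      obtain ⟨l1, hl1, l2, hl2, he, _⟩ := big_common 0 hT hT'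
      exact ih l1 hl1 rfl (h' l2 hl2) py (((pz.symm.of_pick hs').step he).symm)

/-- type R -/
theorem joinR {red : List ℕ → List ℕ → Prop} (h : AW red R1 ⟨1, 0, 0, false⟩ start start) :
    Tri red := by
  obtain ⟨x, n, _, hx⟩ := r1_reach h rfl rfl
  obtain ⟨y1, y2, m, hxy, py, hyz⟩ := r1_stage2 h rfl rfl hx ((Par.refl start).pick1 n)
  exact r1_stage3 hyz rfl hx hxy.win py (((Par.refl start).pick1 n).pick2 m)

end Pool.Agent.H90.Ord
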