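import Pool.Agent.H11.JN.Seq
import Pool.Agent.H90.Ord.ALf

/-!
# Joint plays: type I
-/

set_option autoImplicit false

namespace Pool.Agent.H90.Ord

/-- in phase 1 of `XYI` the first vertex will be picked again -/
theorem xyi_hasMark {red : List ℕ → List ℕ → Prop} {ann : Ann} {a b : St}
    (h : AW red XYI ann a b) (hph : ann.ph = 1) : HasMark a := by
  induction h with
  | done _ _ _ hd =>
      have hd' : _ = 3 := hd
      rw [hph] at hd'
      cases hd'
  | pickA n ha hb h0 _ _ _ => exact nonrun_hasMark ha h0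
  | @pickB ann ann' a b n ha hb h0 hr ht _ ih =>
      rcases ht with ⟨_, h2, _⟩ | ⟨_, h2, _⟩ | ⟨_, _, _, rfl⟩ | ⟨h1, _⟩ | ⟨h1, _⟩ | ⟨h1, _⟩
      · cases h2
      · cases h2
      · exact ih hph
      · rw [hph] at h1; cases h1
      · rw [hph] at h1; cases h1
      · rw [hph] at h1; cases h1
  | @stepA ann a b f T ha hb ht hT _ ih =>
      obtain ⟨l, hl, _⟩ := big_nonempty hT
      rcases ht with ⟨_, _, hf⟩ | ⟨_, h2, _⟩ | ⟨h1, _⟩ | ⟨h1, _⟩
      · refine hasMark_of_step (ih l hl ?_)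
        rw [hf]
        exact hph
      · cases h2
      · rw [hph] at h1; cases h1
      · rw [hph] at h1; cases h1
  | @stepB ann a b f T ha hb ht hT _ ih =>
      obtain ⟨l, hl, _⟩ := big_nonempty hT
      rcases ht with ⟨_, h2, _⟩ | ⟨_, _, g, _, hf⟩ | ⟨h1, _⟩ | ⟨h1, _⟩
      · cases h2
      · refine ih l hl ?_
        rw [hf]
        exact hph
      · rw [hph] at h1; cases h1
      · rw [hph] at h1; cases h1

/-- in `XZI` the second vertex is not complete before the first, so it has a mark -/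
theorem xzi_hasMark {red : List ℕ → List ℕ → Prop} {ann : Ann} {a b : St}
    (h : AW red XZI ann a b) (ha0 : a.stk ≠ []) : HasMark b := by
  induction h with
  | done ha _ _ _ => exact absurd ha ha0
  | pickA n ha hb h0 ht _ _ => exact nonrun_hasMark hb (fun hc => ha0 (ht.1 hc))
  | pickB n ha hb h0 hr ht _ _ => exact nonrun_hasMark hb h0
  | stepA f T ha hb ht hT _ _ => exact nonrun_hasMark hb (fun hc => ha0 (ht.1 hc))
  | @stepB ann a b f T ha hb ht hT _ ih =>
      obtain ⟨l, hl, _⟩ := big_nonempty hT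
      exact hasMark_of_step (ih l hl ha0)

/-- the game `YZI` in phase 1, the first vertex is not at the target -/
theorem yzi_move {red : List ℕ → List ℕ → Prop} {h : ℕ} {s : St}
    (hw : AW red YZI ⟨1, h, 0, false⟩ s start) (hnt : ¬ AT s h) :
    ∃ s', (s' = s ∨ ∃ n, s' = s.pick n) ∧ ∃ (g : List ℕ → ℕ) (T : Set (List ℕ)),
      PtrStep h s' g ∧ Big (s'.need + 1) T ∧
      ∀ l ∈ T, AW red YZI ⟨1, g l, 0, false⟩ (s'.step l) start := by
  have hrun : ∀ {s : St}, ¬ s.Nonrun → AW red YZI ⟨1, h, 0, false⟩ s start →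
      ∃ (g : List ℕ → ℕ) (T : Set (List ℕ)), PtrStep h s g ∧ Big (s.need + 1) T ∧
        ∀ l ∈ T, AW red YZI ⟨1, g l, 0, false⟩ (s.step l) start := by
    intro s hs hw
    cases hw with
    | done ha _ _ _ => exact absurd (Or.inl ha) hs
    | pickA n ha _ _ _ _ => exact absurd ha hs
    | pickB n ha _ _ _ _ _ => exact absurd ha hs
    | stepA f T _ _ ht hT hw =>
        rcases ht with ⟨_, _, g, hg, rfl⟩ | ⟨h1, _⟩
        · exact ⟨g, T, hg, hT, hw⟩
        · cases h1
    | stepB f T ha _ _ _ _ => exact absurd ha hs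
  by_cases hs : s.Nonrun
  · cases hw with
    | done _ hb _ _ => exact absurd hb start_ne
    | pickA n ha hb h0 ht hw =>
        rcases ht with ⟨_, _, _, rfl⟩ | ⟨_, h2, _⟩ | ⟨h1, _⟩
        · exact ⟨s.pick n, Or.inr ⟨n, rfl⟩, hrun (not_nonrun_pick h0 n) hw⟩
        · cases h2
        · cases h1
    | pickB n ha hb h0 hr ht hw =>
        rcases ht with ⟨_, h2, _⟩ | ⟨_, _, h3, _⟩ | ⟨h1, _⟩
        · cases h2
        · exact absurd h3 hnt
        · cases h1
    | stepA f T ha _ _ _ _ => exact absurd hs ha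
    | stepB f T _ hb _ _ _ => exact absurd start_nonrun hb
  · exact ⟨s, Or.inl rfl, hrun hs hw⟩

/-- the game `YZI` in phase 1, the first vertex is at the target -/
theorem yzi_target {red : List ℕ → List ℕ → Prop} {h : ℕ} {s : St}
    (hw : AW red YZI ⟨1, h, 0, false⟩ s start) (hat : AT s h) :
    ∃ m, AW red YZI ⟨2, 0, 0, false⟩ s (start.pick m) := by
  obtain ⟨hl, t, ht0⟩ := hat
  cases hw with
  | done _ hb _ _ => exact absurd hb start_ne
  | pickA n ha hb h0 ht hw =>
      exfalso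
      rcases ht with ⟨_, _, h3, _⟩ | ⟨_, h2, _⟩ | ⟨h1, _⟩
      · rcases h3 with h3 | ⟨t', h3⟩
        · have h3' : h < s.stk.length := h3
          omega
        · rw [ht0] at h3
          cases h3
      · cases h2
      · cases h1
  | pickB n ha hb h0 hr ht hw =>
      rcases ht with ⟨_, h2, _⟩ | ⟨_, _, _, rfl⟩ | ⟨h1, _⟩
      · cases h2
      · exact ⟨n, hw⟩
      · cases h1
  | stepA f T ha hb ht hT hw =>
      exfalso
      rcases ht with ⟨_, _, g, hg, rfl⟩ | ⟨h1, _⟩
      · have hg' : PtrStep h s g := hg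
        cases hg' with
        | zero =>
            rw [ht0] at hl
            simp at hl
        | keep h0 h1 => omega
        | single hs hl' =>
            rw [ht0, List.cons.injEq, Prod.mk.injEq] at hs
            rw [← hs.1.1] at hl'
            rcases hl' with hl' | hl' <;> cases hl'
        | child k i hs hl' hi =>
            rw [ht0, List.cons.injEq, Prod.mk.injEq] at hs
            rw [← hs.1.1] at hl'
            rcases hl' with hl' | hl' <;> cases hl'
      · cases h1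
  | stepB f T _ hb _ _ _ => exact absurd start_nonrun hb

/-- no pointer rule applies at the target -/
theorem no_ptr_at {s : St} {h : ℕ} {g : List ℕ → ℕ} (hat : AT s h) (hg : PtrStep h s g) : False := by
  obtain ⟨hl, t, ht0⟩ := hat
  cases hg with
  | zero =>
      rw [ht0] at hl
      simp at hl
  | keep h0 h1 => omega
  | single hs hl' =>
      rw [ht0, List.cons.injEq, Prod.mk.injEq] at hs
      rw [← hs.1.1] at hl'
      rcases hl' with hl' | hl' <;> cases hl'
  | child k i hs hl' hi =>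
      rw [ht0, List.cons.injEq, Prod.mk.injEq] at hs
      rw [← hs.1.1] at hl'
      rcases hl' with hl' | hl' <;> cases hl'

/-- `XZI` with running first vertex -/
theorem xzi_run {red : List ℕ → List ℕ → Prop} {s : St}
    (hw : AW red XZI ⟨0, 0, 0, false⟩ s start) (hs : ¬ s.Nonrun) :
    ∃ T, Big (s.need + 1) T ∧ ∀ l ∈ T, AW red XZI ⟨0, 0, 0, false⟩ (s.step l) start := by
  cases hw with
  | done _ hb _ _ => exact absurd hb start_ne
  | pickA n ha _ _ _ _ => exact absurd ha hs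
  | pickB n ha _ _ _ _ _ => exact absurd ha hs
  | stepA f T _ _ ht hT hw =>
      obtain ⟨_, rfl⟩ := ht
      exact ⟨T, hT, hw⟩
  | stepB f T _ hb _ _ _ => exact absurd start_nonrun hb

/-- stage A: until the last segment of `x` begins -/
theorem ti_stageA {red : List ℕ → List ℕ → Prop} {ann : Ann} {x1 y1 : St}
    (h : AW red XYI ann x1 y1) (hph : ann.ph = 1) {x2 y2 : St} (hs : SeqS x1 x2)
    (hxz : AW red XZI ⟨0, 0, 0, false⟩ x2 start) (hal : Ald true y1 y2 ann.hb)
    (hyz : AW red YZI ⟨1, ann.hb, 0, false⟩ y2 start) :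
    ∃ x1' x2' y1' y2' m, AW red XYI ⟨2, 0, 0, false⟩ x1' y1' ∧ Par x1' x2' ∧
      AW red XZI ⟨0, 0, 0, false⟩ x2' start ∧ Par y1' y2' ∧
      AW red YZI ⟨2, 0, 0, false⟩ y2' (start.pick m) := by
  induction h generalizing x2 y2 with
  | done _ _ _ hd =>
      have hd' : _ = 3 := hd
      rw [hph] at hd'
      cases hd'
  | @pickA ann ann' a b n ha hb h0 ht hw ih =>
      rcases ht with ⟨_, _, rfl⟩ | ⟨_, _, hat, rfl⟩ | ⟨_, h2, _⟩ | ⟨h1, _⟩ | ⟨h1, _⟩ | ⟨h1, _⟩
      · exact ih hph (hs.pick1 n) hxz hal hyz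
      · obtain ⟨m, hm⟩ := yzi_target hyz (hal.at_iff.1 hat)
        exact ⟨a.pick n, x2, b, y2, m, hw, (hs.par).pick1 n, hxz, hal.par, hm⟩
      · cases h2
      · rw [hph] at h1; cases h1
      · rw [hph] at h1; cases h1
      · rw [hph] at h1; cases h1
  | @pickB ann ann' a b n ha hb h0 hr ht hw ih =>
      rcases ht with ⟨_, h2, _⟩ | ⟨_, h2, _⟩ | ⟨_, _, _, rfl⟩ | ⟨h1, _⟩ | ⟨h1, _⟩ | ⟨h1, _⟩
      · cases h2
      · cases h2
      · exact ih hph hs hxz (hal.pick1 n) hyz
      · rw [hph] at h1; cases h1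
      · rw [hph] at h1; cases h1
      · rw [hph] at h1; cases h1
  | @stepA ann a b f T ha hb ht hT hw ih =>
      have hm : HasMark a := xyi_hasMark (AW.stepA f T ha hb ht hT hw) hph
      rcases ht with ⟨_, _, hf⟩ | ⟨_, h2, _⟩ | ⟨h1, _⟩ | ⟨h1, _⟩
      · have hf' : f = fun _ => ann := hf
        subst hf'
        obtain ⟨T', hT', hw'⟩ := xzi_run hxz (hs.run hm)
        obtain ⟨l1, hl1, l2, hl2, he, hs'⟩ := hs.step hm hT hT'
        exact ih l1 hl1 hph hs' (hw' l2 hl2) hal hyz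
      · cases h2
      · rw [hph] at h1; cases h1
      · rw [hph] at h1; cases h1
  | @stepB ann a b f T ha hb ht hT hw ih =>
      rcases ht with ⟨_, h2, _⟩ | ⟨_, _, g, hg, rfl⟩ | ⟨h1, _⟩ | ⟨h1, _⟩
      · cases h2
      · have hnat : ¬ AT y2 ann.hb := fun hc => no_ptr_at (hal.at_iff.2 hc) hg
        obtain ⟨y2', hy2', g', T', hg', hT', hw'⟩ := yzi_move hyz hnat
        have hal' : Ald true b y2' ann.hb := by
          rcases hy2' with rfl | ⟨n, rfl⟩
          · exact hal
          · exact hal.pick2 n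
        obtain ⟨l1, hl1, l2, hl2, _, _, _, _, _, hgg, hal''⟩ := ald_step hal' hg hg' hT hT'
        have hw2 := hw' l2 hl2
        rw [← hgg] at hw2
        exact ih l1 hl1 hph hs hxz hal'' hw2
      · rw [hph] at h1; cases h1
      · rw [hph] at h1; cases h1

/-- phase 2 of `XYI`: the first vertex can always be moved -/
theorem xyi_solo {red : List ℕ → List ℕ → Prop} {s c : St}
    (h : AW red XYI ⟨2, 0, 0, false⟩ s c) (hs : s.stk ≠ []) :
    ∃ s', (s' = s ∨ ∃ n, s' = s.pick n) ∧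
      ∃ T, Big (s'.need + 1) T ∧ ∀ l ∈ T, AW red XYI ⟨2, 0, 0, false⟩ (s'.step l) c := by
  have hrun : ∀ {s : St}, s.stk ≠ [] → ¬ s.Nonrun → AW red XYI ⟨2, 0, 0, false⟩ s c →
      ∃ T, Big (s.need + 1) T ∧ ∀ l ∈ T, AW red XYI ⟨2, 0, 0, false⟩ (s.step l) c := by
    intro s h0 hs hw
    cases hw with
    | done ha _ _ _ => exact absurd (Or.inl ha) hs
    | pickA n ha _ _ _ _ => exact absurd ha hs
    | pickB n ha _ _ _ _ _ => exact absurd ha hs
    | stepA f T _ _ ht hT hw =>
        rcases ht with ⟨h1, _⟩ | ⟨h1, _⟩ | ⟨_, _, hf⟩ | ⟨h1, _⟩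
        · cases h1
        · cases h1
        · have hf' : f = fun _ => (⟨2, 0, 0, false⟩ : Ann) := hf
          subst hf'
          exact ⟨T, hT, hw⟩
        · cases h1
    | stepB f T ha _ _ _ _ => exact absurd ha hs
  by_cases hnr : s.Nonrun
  · cases h with
    | done ha _ _ _ => exact absurd ha hs
    | pickA n ha hb h0 ht hw =>
        rcases ht with ⟨h1, _⟩ | ⟨h1, _⟩ | ⟨h1, _⟩ | ⟨_, _, rfl⟩ | ⟨_, h2, _⟩ | ⟨h1, _⟩
        · cases h1
        · cases h1
        · cases h1
        · exact ⟨s.pick n, Or.inr ⟨n, rfl⟩, hrun hs (not_nonrun_pick hs n) hw⟩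
        · cases h2
        · cases h1
    | pickB n ha hb h0 hr ht hw =>
        rcases ht with ⟨h1, _⟩ | ⟨h1, _⟩ | ⟨h1, _⟩ | ⟨_, h2, _⟩ | ⟨_, _, h3, _⟩ | ⟨h1, _⟩
        · cases h1
        · cases h1
        · cases h1
        · cases h2
        · exact absurd h3 hs
        · cases h1
    | stepA f T ha _ _ _ _ => exact absurd hnr ha
    | stepB f T ha hb ht hT hw =>
        rcases ht with ⟨h1, _⟩ | ⟨h1, _⟩ | ⟨_, h2, _⟩ | ⟨h1, _⟩
        · cases h1
        · cases h1
        · cases h2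
        · cases h1
  · exact ⟨s, Or.inl rfl, hrun hs hnr h⟩

/-- phase 2 of `YZI` with running second vertex -/
theorem yzi_run {red : List ℕ → List ℕ → Prop} {c s : St}
    (hw : AW red YZI ⟨2, 0, 0, false⟩ c s) (hs : ¬ s.Nonrun) :
    ∃ T, Big (s.need + 1) T ∧ ∀ l ∈ T, AW red YZI ⟨2, 0, 0, false⟩ c (s.step l) := by
  cases hw with
  | done _ hb _ _ => exact absurd (Or.inl hb) hs
  | pickA n _ hb _ _ _ => exact absurd hb hs
  | pickB n _ hb _ _ _ _ => exact absurd hb hs
  | stepA f T _ hb _ _ _ => exact absurd hb hs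
  | stepB f T _ _ ht hT hw =>
      rcases ht with ⟨h1, _⟩ | ⟨_, hf⟩
      · cases h1
      · have hf' : f = fun _ => (⟨2, 0, 0, false⟩ : Ann) := hf
        subst hf'
        exact ⟨T, hT, hw⟩

/-- stage B: until `x` is complete -/
theorem ti_stageB {red : List ℕ → List ℕ → Prop} {ann : Ann} {x2 z1 : St}
    (h : AW red XZI ann x2 z1) {x1 y1 y2 z2 : St} (hxy : AW red XYI ⟨2, 0, 0, false⟩ x1 y1)
    (px : Par x1 x2) (py : Par y1 y2) (hyz : AW red YZI ⟨2, 0, 0, false⟩ y2 z2)
    (hs : SeqS z1 z2) : Tri red := by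
  induction h generalizing x1 z2 with
  | done ha hb hr hd =>
      exact final_x hxy.win (Win.done ha hb hr) hyz.win px py hs.par (px.nil_iff.2 ha)
  | pickA n ha hb h0 ht hw ih => exact ih hxy (px.pick2 n) hyz hs
  | pickB n ha hb h0 hr ht hw ih => exact ih hxy px hyz (hs.pick1 n)
  | @stepA ann a b f T ha hb ht hT hw ih =>
      obtain ⟨s', hs', T', hT', h'⟩ := xyi_solo hxy (fun h0 => ne_nil_of_run ha (px.nil_iff.1 h0))
      obtain ⟨l1, hl1, l2, hl2, he, _⟩ := big_common 0 hT hT'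
      exact ih l1 hl1 (h' l2 hl2) (((px.symm.of_pick hs').step he).symm) hyz hs
  | @stepB ann a b f T ha hb ht hT hw ih =>
      by_cases h0 : a.stk = []
      · exact final_x hxy.win (AW.stepB f T ha hb ht hT hw).win hyz.win px py hs.par
          (px.nil_iff.2 h0)
      · have hm : HasMark b := xzi_hasMark (AW.stepB f T ha hb ht hT hw) h0
        obtain ⟨T', hT', h'⟩ := yzi_run hyz (hs.run hm)
        obtain ⟨l1, hl1, l2, hl2, he, hs'⟩ := hs.step hm hT hT'
        exact ih l1 hl1 hxy px (h' l2 hl2) hs'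

/-- type I -/
theorem joinI {red : List ℕ → List ℕ → Prop} (h1 : AW red XYI ⟨1, 0, 1, false⟩ start start)
    (h2 : AW red XZI ⟨0, 0, 0, false⟩ start start) (h3 : AW red YZI ⟨1, 1, 0, false⟩ start start) :
    Tri red := by
  obtain ⟨n, hn⟩ : ∃ n, AW red XZI ⟨0, 0, 0, false⟩ (start.pick n) start := by
    cases h2 with
    | done ha _ _ _ => exact absurd ha start_ne
    | pickA n ha hb h0 ht hw =>
        obtain ⟨_, rfl⟩ := ht
        exact ⟨n, hw⟩
    | pickB n ha hb h0 hr ht hw => exact absurd rfl hr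
    | stepA f T ha _ _ _ _ => exact absurd start_nonrun ha
    | stepB f T _ hb _ _ _ => exact absurd start_nonrun hb
  obtain ⟨x1, x2, y1, y2, m, hxy, px, hxz, py, hyz⟩ := ti_stageA h1 rfl (x2 := start.pick n)
    (y2 := start) ⟨rfl, Or.inl ⟨rfl, rfl, rfl⟩⟩ hn (ald_start true) h3
  exact ti_stageB hxz hxy px py hyz ⟨rfl, Or.inl ⟨rfl, rfl, rfl⟩⟩

end Pool.Agent.H90.Ord
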